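import Mathlib
import Pool.Agent.HT2.Cls

/-!
Cone avoidance (boldface version): open operators, the basis lemma and the dichotomy lemma.
-/

namespace Pool.Agent.HTS

open Pool.Agent.EMP Pool.Agent.HT2

/-- graph of the characteristic function -/
def gr (C : Om) : Set (ℕ × ℕ) := {ν | ν.2 = if C ν.1 = true then 1 else 0}

/-- no operator of the class computes `C` from `W` -/
def Av (𝒞 : Set Opr) (C W : Om) : Prop := ∀ Ψ ∈ 𝒞, Ψ W ≠ gr C

/-- uniform enumeration over a closed class -/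
def uW (Ψ D : Opr) : Opr := fun W =>
  {ν | ∃ u, ∀ P : Om, (AtO D u (jn W P)).Nonempty ∨ ν ∈ AtO Ψ u (jn W P)}

lemma uW_open (Ψ D : Opr) : OpenO (uW Ψ D) := by
  rintro W ν ⟨u, hu⟩
  refine ⟨u, fun W' hW' => ⟨u, fun P => ?_⟩⟩
  have hagr : agr u (jn W P) (jn W' P) := agr_jn' hW' (agr_refl _ P)
  rw [← AtO_congr hagr, ← AtO_congr hagr]
  exact hu P

/-- the class of oracles where `ν0` is not enumerated -/
def uN (Ψ D : Opr) (ν0 : ℕ × ℕ) : Opr := fun W => D W ∪ {ν | ν = ν0 ∧ ν0 ∈ Ψ W}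

lemma uN_open {Ψ D : Opr} (hΨ : OpenO Ψ) (hD : OpenO D) (ν0 : ℕ × ℕ) : OpenO (uN Ψ D ν0) := by
  rintro W ν (h | ⟨h1, h2⟩)
  · obtain ⟨n, hn⟩ := hD W ν h
    exact ⟨n, fun W' hW' => Or.inl (hn W' hW')⟩
  · obtain ⟨n, hn⟩ := hΨ W ν0 h2
    exact ⟨n, fun W' hW' => Or.inr ⟨h1, hn W' hW'⟩⟩

/-- the class of oracles with a prescribed initial segment of the odd part -/
def uF (D : Opr) (N : ℕ) (R : Finset ℕ) : Opr := fun W =>
  D W ∪ {ν | ν = (0, 0) ∧ ∃ i < N, od W i ≠ decide (i ∈ R)}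

lemma uF_open {D : Opr} (hD : OpenO D) (N : ℕ) (R : Finset ℕ) : OpenO (uF D N R) := by
  rintro W ν (h | ⟨h1, i, h2, h3⟩)
  · obtain ⟨n, hn⟩ := hD W ν h
    exact ⟨n, fun W' hW' => Or.inl (hn W' hW')⟩
  · refine ⟨2 * i + 2, fun W' hW' => Or.inr ⟨h1, i, h2, ?_⟩⟩
    have : od W' i = od W i := (hW' (2 * i + 1) (by omega)).symm
    rw [this]; exact h3

/-- union of operators -/
def uU (Ψ D : Opr) : Opr := fun W => Ψ W ∪ D W

lemma uU_open {Ψ D : Opr} (hΨ : OpenO Ψ) (hD : OpenO D) : OpenO (uU Ψ D) := by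
  rintro W ν (h | h)
  · obtain ⟨n, hn⟩ := hΨ W ν h
    exact ⟨n, fun W' hW' => Or.inl (hn W' hW')⟩
  · obtain ⟨n, hn⟩ := hD W ν h
    exact ⟨n, fun W' hW' => Or.inr (hn W' hW')⟩

/-- the empty operator -/
def uE : Opr := fun _ => ∅

lemma uE_open : OpenO uE := fun _ _ h => absurd h (Set.notMem_empty _)

/-- the basic closure properties -/
structure ClB (𝒞 : Set Opr) : Prop where
  cnt : 𝒞.Countable
  op : ∀ Ψ ∈ 𝒞, OpenO Ψ
  w : ∀ Ψ ∈ 𝒞, ∀ D ∈ 𝒞, uW Ψ D ∈ 𝒞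
  n : ∀ Ψ ∈ 𝒞, ∀ D ∈ 𝒞, ∀ ν, uN Ψ D ν ∈ 𝒞
  f : ∀ D ∈ 𝒞, ∀ N R, uF D N R ∈ 𝒞

/-- the graph is covered by the uniform enumeration -/
lemma cover {𝒞 : Set Opr} {C : Om} (hC : ClB 𝒞) {W : Om} {Ψ D : Opr} (hΨ : Ψ ∈ 𝒞) (hD : D ∈ 𝒞)
    (h : ∀ P, D (jn W P) = ∅ → gr C ⊆ Ψ (jn W P)) : gr C ⊆ uW Ψ D W := by
  intro ν hν
  exact compact_unif (O := fun n => {P : Om | (AtO D n (jn W P)).Nonempty ∨ ν ∈ AtO Ψ n (jn W P)})
      (by
        rintro n n' hnn' P (h | h)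
        · left; exact h.mono (AtO_mono hnn' _)
        · right; exact AtO_mono hnn' _ h)
      (by
        intro n P hP
        refine ⟨n, fun P' hP' => ?_⟩
        have hagr : agr n (jn W P) (jn W P') := agr_jn' (agr_refl _ _) hP'
        change (AtO D n (jn W P')).Nonempty ∨ ν ∈ AtO Ψ n (jn W P')
        rw [← AtO_congr hagr, ← AtO_congr hagr]
        exact hP)
      (by
        intro P
        by_cases hP : D (jn W P) = ∅
        · obtain ⟨n, hn⟩ := exists_AtO (hC.op Ψ hΨ) (h P hP hν)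
          exact ⟨n, Or.inr hn⟩
        · obtain ⟨ν', hν'⟩ := Set.nonempty_iff_ne_empty.mpr hP
          obtain ⟨n, hn⟩ := exists_AtO (hC.op D hD) hν'
          exact ⟨n, Or.inl ⟨ν', hn⟩⟩)

lemma uW_sub {W P : Om} {Ψ D : Opr} (h : D (jn W P) = ∅) : uW Ψ D W ⊆ Ψ (jn W P) := by
  rintro ν ⟨u, hu⟩
  rcases hu P with h1 | h1
  · obtain ⟨ν', hν'⟩ := h1
    have := AtO_sub hν'
    rw [h] at this
    exact absurd this (Set.notMem_empty _)
  · exact AtO_sub h1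

/-- if the graph is enumerated on the whole class then something outside the graph is -/
lemma outside {𝒞 : Set Opr} {C : Om} (hC : ClB 𝒞) {W : Om} (hA : Av 𝒞 C W) {Ψ D : Opr}
    (hΨ : Ψ ∈ 𝒞) (hD : D ∈ 𝒞) (h : ∀ P, D (jn W P) = ∅ → gr C ⊆ Ψ (jn W P)) :
    ∀ P, D (jn W P) = ∅ → ∃ ν ∈ Ψ (jn W P), ν ∉ gr C := by
  intro P hP
  by_contra hcon
  push Not at hcon
  exact hA _ (hC.w Ψ hΨ D hD) (Set.Subset.antisymm ((uW_sub hP).trans hcon) (cover hC hΨ hD h))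

/-- basis lemma -/
theorem basis {𝒞 : Set Opr} {C : Om} (hC : ClB 𝒞) {W : Om} (hA : Av 𝒞 C W) {D : Opr} (hD : D ∈ 𝒞)
    (hne : ∃ P, D (jn W P) = ∅) :
    ∃ P, D (jn W P) = ∅ ∧ Av 𝒞 C (jn W P) := by
  classical
  have : Countable 𝒞 := hC.cnt.to_subtype
  have : Nonempty 𝒞 := ⟨⟨D, hD⟩⟩
  obtain ⟨e, he⟩ := exists_surjective_nat 𝒞
  let T := {E : Opr // E ∈ 𝒞 ∧ ∃ P, E (jn W P) = ∅}
  have step : ∀ n : ℕ, ∀ E : T, ∃ E' : T, (∀ P, E'.1 (jn W P) = ∅ → E.1 (jn W P) = ∅) ∧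
      ∀ P, E'.1 (jn W P) = ∅ → (e n).1 (jn W P) ≠ gr C := by
    intro n E
    by_cases h1 : ∃ P, E.1 (jn W P) = ∅ ∧ ∃ ν ∈ gr C, ν ∉ (e n).1 (jn W P)
    · obtain ⟨P, hP, ν, hν, hn⟩ := h1
      refine ⟨⟨uN (e n).1 E.1 ν, hC.n _ (e n).2 _ E.2.1 ν, P, ?_⟩, ?_, ?_⟩
      · unfold uN
        rw [hP, Set.empty_union]
        ext ν'
        simp only [Set.mem_ofPred_eq, Set.mem_empty_iff_false, iff_false]
        rintro ⟨_, h2⟩
        exact hn h2
      · intro P' hP'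
        unfold uN at hP'
        exact (Set.union_empty_iff.mp hP').1
      · intro P' hP' heq
        unfold uN at hP'
        have h0 := (Set.union_empty_iff.mp hP').2
        have : ν ∈ {ν' | ν' = ν ∧ ν ∈ (e n).1 (jn W P')} := ⟨rfl, by rw [heq]; exact hν⟩
        rw [h0] at this
        exact this
    · push Not at h1
      have h2 := outside hC hA (e n).2 E.2.1 (fun P hP ν hν => h1 P hP ν hν)
      obtain ⟨P, hP⟩ := E.2.2
      obtain ⟨ν, hν, hn⟩ := h2 P hP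
      obtain ⟨N, hN⟩ := exists_AtO (hC.op _ (e n).2) hν
      refine ⟨⟨uF E.1 N ((Finset.range N).filter (fun i => P i = true)), hC.f _ E.2.1 _ _, P, ?_⟩,
        ?_, ?_⟩
      · unfold uF
        rw [hP, Set.empty_union]
        ext ν'
        simp only [Set.mem_ofPred_eq, Set.mem_empty_iff_false, iff_false]
        rintro ⟨_, i, hi, h4⟩
        apply h4
        rw [od_jn]
        simp [hi]
      · intro P' hP'
        unfold uF at hP'
        exact (Set.union_empty_iff.mp hP').1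
      · intro P' hP' heq
        unfold uF at hP'
        have h0 := (Set.union_empty_iff.mp hP').2
        have hagr : agr N (jn W P) (jn W P') := by
          apply agr_jn' (agr_refl _ _)
          intro i hi
          by_contra hne'
          have : ((0, 0) : ℕ × ℕ) ∈ {ν' : ℕ × ℕ | ν' = (0, 0) ∧ ∃ i < N, od (jn W P') i ≠
              decide (i ∈ (Finset.range N).filter (fun i => P i = true))} := by
            refine ⟨rfl, i, hi, ?_⟩
            rw [od_jn]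
            intro h5
            apply hne'
            rw [h5]
            simp [hi]
          rw [h0] at this
          exact this
        have h6 := hN _ hagr
        rw [heq] at h6
        exact hn h6
  choose nxt hn1 hn2 using step
  let c : ℕ → T := fun n => Nat.rec ⟨D, hD, hne⟩ (fun n p => nxt n p) n
  have hcs : ∀ n, c (n + 1) = nxt n (c n) := fun n => rfl
  obtain ⟨P, hP⟩ := compact_inter (C := fun n => {P | (c n).1 (jn W P) = ∅})
    (fun n P hP => hn1 n (c n) P (by rw [← hcs]; exact hP))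
    (by
      intro n P hP
      have hP : ¬ (c n).1 (jn W P) = ∅ := hP
      obtain ⟨ν, hν⟩ := Set.nonempty_iff_ne_empty.mpr hP
      obtain ⟨k, hk⟩ := hC.op _ (c n).2.1 _ _ hν
      refine ⟨k, fun P' hP' hcon => ?_⟩
      have h1 := hk _ (agr_jn' (agr_refl k W) hP')
      have hcon : (c n).1 (jn W P') = ∅ := hcon
      rw [hcon] at h1
      exact h1)
    (fun n => (c n).2.2)
  refine ⟨P, hP 0, ?_⟩
  intro Ψ hΨ
  obtain ⟨n, hn⟩ := he ⟨Ψ, hΨ⟩
  have h1 := hn2 n (c n)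
  rw [hn] at h1
  exact h1 P (by rw [← hcs]; exact hP (n + 1))

/-- dichotomy lemma -/
theorem dich {𝒞 : Set Opr} {C : Om} (hC : ClB 𝒞) {W : Om} (hA : Av 𝒞 C W) {Ψ D : Opr}
    (hΨ : Ψ ∈ 𝒞) (hD : D ∈ 𝒞) :
    (∃ P, D (jn W P) = ∅ ∧ Av 𝒞 C (jn W P) ∧ ∃ ν ∈ gr C, ν ∉ Ψ (jn W P)) ∨
    (∀ P, D (jn W P) = ∅ → ∃ ν ∈ Ψ (jn W P), ν ∉ gr C) := by
  by_cases h1 : ∃ P, D (jn W P) = ∅ ∧ ∃ ν ∈ gr C, ν ∉ Ψ (jn W P)
  · left
    obtain ⟨P, hP, ν, hν, hn⟩ := h1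
    obtain ⟨P', h2, h3⟩ := basis hC hA (hC.n _ hΨ _ hD ν) ⟨P, by
      unfold uN
      rw [hP, Set.empty_union]
      ext ν'
      simp only [Set.mem_ofPred_eq, Set.mem_empty_iff_false, iff_false]
      rintro ⟨_, h2⟩
      exact hn h2⟩
    unfold uN at h2
    refine ⟨P', (Set.union_empty_iff.mp h2).1, h3, ν, hν, fun h4 => ?_⟩
    have : ν ∈ {ν' | ν' = ν ∧ ν ∈ Ψ (jn W P')} := ⟨rfl, h4⟩
    rw [(Set.union_empty_iff.mp h2).2] at this
    exact this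
  · right
    push Not at h1
    exact outside hC hA hΨ hD (fun P hP ν hν => h1 P hP ν hν)

end Pool.Agent.HTS
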