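import Mathlib
import Pool.Agent.HTS.Basic

/-!
Operators and maps for the two forcings.
-/

namespace Pool.Agent.HTS

open Pool.Agent.EMP Pool.Agent.HT2

/-- homogeneous finite sets -/
def Hom (T : ℕ → ℕ → Bool) (i : Bool) (E : Finset ℕ) : Prop :=
  ∀ x ∈ E, ∀ y ∈ E, x < y → T x y = i

/-- optional homogeneity -/
def HomO (T : ℕ → ℕ → Bool) : Option Bool → Finset ℕ → Prop
  | none, _ => True
  | some i, E => Hom T i E

/-- what can be enumerated by adding finite subsets of the reservoir -/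
def opR (Ψ : Opr) (i : Option Bool) (F : Finset ℕ) : Opr := fun V =>
  {ν | ∃ n : ℕ, ∃ E : Finset ℕ, (∀ e ∈ E, od V e = true) ∧ HomO (TZ (ev V)) i E ∧
    ν ∈ AtO Ψ (2 * n) (jn (ev V) (chF (F ∪ E)))}

lemma HomO_congr {T T' : ℕ → ℕ → Bool} {i : Option Bool} {E : Finset ℕ}
    (h : ∀ x ∈ E, ∀ y ∈ E, x < y → T x y = T' x y) (hT : HomO T i E) : HomO T' i E := by
  cases i with
  | none => trivial
  | some i => exact fun x hx y hy hxy => by rw [← h x hx y hy hxy]; exact hT x hx y hy hxy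

lemma opR_open (Ψ : Opr) (i : Option Bool) (F : Finset ℕ) : OpenO (opR Ψ i F) := by
  rintro V ν ⟨n, E, h1, h2, h3⟩
  let L : ℕ := E.sup id
  have hL : ∀ e ∈ E, e ≤ L := fun e he => Finset.le_sup (f := id) he
  refine ⟨4 * (n + L + 1 + 1) ^ 2, fun V' hV' => ?_⟩
  obtain ⟨g1, g2, g3⟩ := agr_data hV'
  refine ⟨n, E, ?_, ?_, ?_⟩
  · intro e he
    have := hL e he
    rw [← g1 e (by omega)]; exact h1 e he
  · apply HomO_congr _ h2
    intro x hx y hy hxy
    have := hL y hy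
    exact g2 x y hxy (by omega)
  · rw [← AtO_congr (agr_jn (agr_mono (by omega) g3) (agr_refl _ _))]
    exact h3

/-- thinning the reservoir -/
def SX (m : ℕ) (E : Finset ℕ) (b : Bool) : Om → Om := fun W =>
  jn (ev W) (fun y => od W y && decide (m ≤ y ∧ ∀ e ∈ E, TZ (ev W) e y = b))

lemma SX_cont (m : ℕ) (E : Finset ℕ) (b : Bool) : ContM (SX m E b) := by
  intro W n
  let L : ℕ := E.sup id
  have hL : ∀ e ∈ E, e ≤ L := fun e he => Finset.le_sup (f := id) he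
  refine ⟨2 * (n + 2 * (L + n + 1) ^ 2), fun W' hW' => ?_⟩
  have h1 : agr (n + 2 * (L + n + 1) ^ 2) (ev W) (ev W') := agr_ev hW'
  have h2 : agr (n + 2 * (L + n + 1) ^ 2) (od W) (od W') := agr_od hW'
  have h3 : agr ((L + n + 1) ^ 2) (od (ev W)) (od (ev W')) :=
    agr_od (agr_mono (by omega) h1)
  apply agr_jn' (agr_mono (by omega) h1)
  intro y hy
  beta_reduce
  rw [h2 y (by omega)]
  congr 1
  apply decide_eq_decide.mpr
  have key : ∀ e ∈ E, TZ (ev W) e y = TZ (ev W') e y := by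
    intro e he
    have := hL e he
    unfold TZ
    apply h3
    apply pair_lt_sq <;> omega
  constructor
  · rintro ⟨hb, h⟩
    exact ⟨hb, fun e he => by rw [← key e he]; exact h e he⟩
  · rintro ⟨hb, h⟩
    exact ⟨hb, fun e he => by rw [key e he]; exact h e he⟩

lemma SX_jn (m : ℕ) (E : Finset ℕ) (b : Bool) (Z X : Om) :
    SX m E b (jn Z X) = jn Z (fun y => X y && decide (m ≤ y ∧ ∀ e ∈ E, TZ Z e y = b)) := by
  unfold SX
  rw [ev_jn, od_jn]

/-- restricting the reservoir to one side of a partition -/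
def SP (b : Bool) : Om → Om := fun W =>
  jn (ev (ev W)) (fun y => od (ev W) y && decide (od W y = b))

lemma SP_cont (b : Bool) : ContM (SP b) := by
  intro W n
  refine ⟨4 * n, fun W' hW' => ?_⟩
  have h1 : agr n (ev (ev W)) (ev (ev W')) := agr_ev (agr_ev (agr_mono (by omega) hW'))
  have h2 : agr n (od (ev W)) (od (ev W')) := agr_od (agr_ev (agr_mono (by omega) hW'))
  have h3 : agr n (od W) (od W') := agr_od (agr_mono (by omega) hW')
  apply agr_jn' h1
  intro y hy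
  beta_reduce
  rw [h2 y hy, h3 y hy]

lemma SP_jn (b : Bool) (Z X P : Om) :
    SP b (jn (jn Z X) P) = jn Z (fun y => X y && decide (P y = b)) := by
  unfold SP
  rw [ev_jn, od_jn, ev_jn, od_jn]

/-- the closure properties used by the forcings -/
structure Cl (𝒞 : Set Opr) : Prop extends ClB 𝒞 where
  emp : uE ∈ 𝒞
  u : ∀ Ψ ∈ 𝒞, ∀ D ∈ 𝒞, uU Ψ D ∈ 𝒞
  r : ∀ Ψ ∈ 𝒞, ∀ i F, opR Ψ i F ∈ 𝒞
  sx : ∀ Ψ ∈ 𝒞, ∀ m E b, cmpO Ψ (SX m E b) ∈ 𝒞
  sp : ∀ Ψ ∈ 𝒞, ∀ b, cmpO Ψ (SP b) ∈ 𝒞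
  s3 : ∀ Ψ ∈ 𝒞, cmpO Ψ S3 ∈ 𝒞
  s4 : ∀ Ψ ∈ 𝒞, cmpO Ψ S4 ∈ 𝒞

lemma Av_cmp {𝒞 : Set Opr} {C W : Om} {S : Om → Om} (hS : ∀ Ψ ∈ 𝒞, cmpO Ψ S ∈ 𝒞)
    (h : Av 𝒞 C W) : Av 𝒞 C (S W) :=
  fun Ψ hΨ heq => h (cmpO Ψ S) (hS Ψ hΨ) heq

/-- an infinite set of positions -/
def Inf (X : Om) : Prop := ∀ m, ∃ y, m ≤ y ∧ X y = true

lemma Inf_iff {X : Om} : Inf X ↔ {x | X x = true}.Infinite := by
  constructor
  · intro h hfin
    obtain ⟨M, hM⟩ := hfin.bddAbove
    obtain ⟨y, hy, hX⟩ := h (M + 1)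
    have := hM hX
    omega
  · intro h m
    obtain ⟨y, hy, hym⟩ := h.exists_gt m
    exact ⟨y, hym.le, hy⟩

/-- one of the two sides is infinite -/
lemma Inf_split {X : Om} (h : Inf X) (P : Om) :
    ∃ b : Bool, Inf (fun y => X y && decide (P y = b)) := by
  by_contra hcon
  push Not at hcon
  have h1 := hcon true
  have h2 := hcon false
  unfold Inf at h1 h2
  push Not at h1 h2
  obtain ⟨m1, h1⟩ := h1
  obtain ⟨m2, h2⟩ := h2
  obtain ⟨y, hy, hX⟩ := h (max m1 m2)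
  cases hP : P y
  · apply h2 y (by omega)
    simp [hX, hP]
  · apply h1 y (by omega)
    simp [hX, hP]

/-- the finite approximation computes the same as the limit set -/
lemma agr_fin {n : ℕ} {Z G : Om} {F : Finset ℕ} (h1 : ∀ x, x < n → (G x = true ↔ x ∈ F)) :
    agr (2 * n) (jn Z G) (jn Z (chF F)) := by
  apply agr_jn (agr_refl _ _)
  intro x hx
  unfold chF
  by_cases h : G x = true
  · rw [h]; symm; rw [decide_eq_true_eq]; exact (h1 x hx).mp h
  · have hf : G x = false := by simpa using h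
    rw [hf]; symm; rw [decide_eq_false_iff_not]
    exact fun h2 => h ((h1 x hx).mpr h2)

/-- negative information is inherited by the limit set -/
lemma neg_final {Ψ : Opr} (hop : OpenO Ψ) {Z G X : Om} {F : Finset ℕ}
    {i : Option Bool} {ν : ℕ × ℕ}
    (h : ∀ (n : ℕ) (E : Finset ℕ), (∀ e ∈ E, X e = true) → HomO (TZ Z) i E →
      ν ∉ AtO Ψ (2 * n) (jn Z (chF (F ∪ E))))
    (hF : ∀ x ∈ F, G x = true) (hG : ∀ x, G x = true → x ∈ F ∨ X x = true)
    (hhom : ∀ E : Finset ℕ, (∀ x ∈ E, G x = true) → HomO (TZ Z) i E) : ν ∉ Ψ (jn Z G) := by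
  intro hν
  obtain ⟨N, hN⟩ := exists_AtO hop hν
  let E : Finset ℕ := (Finset.range N).filter (fun x => G x = true ∧ X x = true)
  have hE : ∀ x ∈ E, G x = true ∧ X x = true := fun x hx => (Finset.mem_filter.mp hx).2
  apply h N E (fun x hx => (hE x hx).2) (hhom E (fun x hx => (hE x hx).1))
  rw [← AtO_congr (agr_fin (n := N) (G := G) ?_)]
  · exact AtO_mono (by omega) _ hN
  · intro x hx
    rw [Finset.mem_union]
    constructor
    · intro hx'
      rcases hG x hx' with h1 | h1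
      · exact Or.inl h1
      · exact Or.inr (Finset.mem_filter.mpr ⟨Finset.mem_range.mpr hx, hx', h1⟩)
    · rintro (h1 | h1)
      · exact hF x h1
      · exact (hE x h1).1

/-- positive information is inherited by the limit set -/
lemma pos_final {Ψ : Opr} {Z G X : Om} {F : Finset ℕ} {ν : ℕ × ℕ} {n : ℕ}
    (h : ν ∈ AtO Ψ (2 * n) (jn Z (chF F))) (hX : ∀ y, X y = true → n ≤ y)
    (hF : ∀ x ∈ F, G x = true) (hG : ∀ x, G x = true → x ∈ F ∨ X x = true) :
    ν ∈ Ψ (jn Z G) := by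
  rw [← AtO_congr (agr_fin (n := n) (G := G) ?_)] at h
  · exact AtO_sub h
  · intro x hx
    constructor
    · intro hx'
      rcases hG x hx' with h1 | h1
      · exact h1
      · have := hX x h1; omega
    · exact hF x

end Pool.Agent.HTS
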