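import Mathlib
import Pool.Agent.HTS.Ops

/-!
Cohesive sets avoiding a cone: Mathias forcing.
-/

namespace Pool.Agent.HTS

open Pool.Agent.EMP Pool.Agent.HT2

/-- conditions -/
structure CC (𝒞 : Set Opr) (C Z : Om) where
  F : Finset ℕ
  X : Om
  av : Av 𝒞 C (jn Z X)
  inf : Inf X

/-- requirements -/
abbrev CRq (𝒞 : Set Opr) := 𝒞 ⊕ ℕ ⊕ ℕ

variable {𝒞 : Set Opr} {C Z : Om}

/-- extension -/
structure CExt (c c' : CC 𝒞 C Z) : Prop where
  sub : c.F ⊆ c'.F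
  new : ∀ x ∈ c'.F, x ∈ c.F ∨ c.X x = true
  res : ∀ y, c'.X y = true → c.X y = true

lemma CExt.refl (c : CC 𝒞 C Z) : CExt c c :=
  ⟨subset_rfl, fun _ h => Or.inl h, fun _ h => h⟩

lemma CExt.trans {c c' c'' : CC 𝒞 C Z} (h : CExt c c') (h' : CExt c' c'') : CExt c c'' :=
  ⟨h.sub.trans h'.sub, fun x hx => by
    rcases h'.new x hx with h1 | h1
    · exact h.new x h1
    · exact Or.inr (h.res x h1), fun y hy => h.res y (h'.res y hy)⟩

/-- a requirement is forced -/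
def CSat (c : CC 𝒞 C Z) : CRq 𝒞 → Prop
  | .inl Ψ =>
    (∃ ν ∈ gr C, ∀ (n : ℕ) (E : Finset ℕ), (∀ e ∈ E, c.X e = true) → HomO (TZ Z) none E →
      ν ∉ AtO Ψ.1 (2 * n) (jn Z (chF (c.F ∪ E)))) ∨
    (∃ ν, ν ∉ gr C ∧ ∃ n, ν ∈ AtO Ψ.1 (2 * n) (jn Z (chF c.F)) ∧ ∀ y, c.X y = true → n ≤ y)
  | .inr (.inl x) => ∃ b, ∀ y, c.X y = true → TZ Z x y = b
  | .inr (.inr m) => ∃ f ∈ c.F, m ≤ f

/-- thinning a condition -/
lemma c_thin (hC : Cl 𝒞) (c : CC 𝒞 C Z) (F : Finset ℕ) (hF : c.F ⊆ F)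
    (hF' : ∀ x ∈ F, x ∈ c.F ∨ c.X x = true) (m : ℕ) (E : Finset ℕ) (b : Bool)
    (hinf : Inf (fun y => c.X y && decide (m ≤ y ∧ ∀ e ∈ E, TZ Z e y = b))) :
    ∃ c' : CC 𝒞 C Z, CExt c c' ∧ c'.F = F ∧
      c'.X = fun y => c.X y && decide (m ≤ y ∧ ∀ e ∈ E, TZ Z e y = b) := by
  refine ⟨⟨F, _, ?_, hinf⟩, ⟨hF, hF', ?_⟩, rfl, rfl⟩
  · have := Av_cmp (S := SX m E b) (fun Ψ hΨ => hC.sx Ψ hΨ m E b) c.av
    rw [SX_jn] at this
    exact this
  · intro y hy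
    have hy : (c.X y && decide (m ≤ y ∧ ∀ e ∈ E, TZ Z e y = b)) = true := hy
    rw [Bool.and_eq_true] at hy
    exact hy.1

lemma inf_ge {X : Om} (h : Inf X) (Z : Om) (m : ℕ) (b : Bool) :
    Inf (fun y => X y && decide (m ≤ y ∧ ∀ e ∈ (∅ : Finset ℕ), TZ Z e y = b)) := by
  intro k
  obtain ⟨y, hy, hX⟩ := h (max k m)
  refine ⟨y, by omega, ?_⟩
  simp only [hX, Bool.true_and, decide_eq_true_eq]
  exact ⟨by omega, by simp⟩

lemma c_step (hC : Cl 𝒞) (c : CC 𝒞 C Z) (r : CRq 𝒞) : ∃ c' : CC 𝒞 C Z, CExt c c' ∧ CSat c' r := by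
  rcases r with Ψ | x | m
  · -- operator
    have h := c.av _ (hC.r Ψ.1 Ψ.2 none c.F)
    by_cases h1 : ∃ ν ∈ gr C, ν ∉ opR Ψ.1 none c.F (jn Z c.X)
    · obtain ⟨ν, h2, h3⟩ := h1
      refine ⟨c, CExt.refl c, Or.inl ⟨ν, h2, ?_⟩⟩
      intro n E hE hH hcon
      apply h3
      refine ⟨n, E, ?_, ?_, ?_⟩
      · rw [od_jn]; exact hE
      · rw [ev_jn]; exact hH
      · rw [ev_jn]; exact hcon
    · push Not at h1
      have h2 : ∃ ν ∈ opR Ψ.1 none c.F (jn Z c.X), ν ∉ gr C := by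
        by_contra hcon
        push Not at hcon
        exact h (Set.Subset.antisymm hcon h1)
      obtain ⟨ν, ⟨n, E, g1, g2, g3⟩, h4⟩ := h2
      rw [od_jn] at g1
      rw [ev_jn] at g3
      obtain ⟨c', k1, k2, k3⟩ := c_thin hC c (c.F ∪ E) Finset.subset_union_left
        (fun x hx => (Finset.mem_union.mp hx).imp id (g1 x)) n ∅ true (inf_ge c.inf Z n true)
      refine ⟨c', k1, Or.inr ⟨ν, h4, n, ?_, ?_⟩⟩
      · rw [k2]; exact g3
      · intro y hy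
        rw [k3] at hy
        simp only [Bool.and_eq_true, decide_eq_true_eq] at hy
        exact hy.2.1
  · -- cohesiveness
    obtain ⟨b, hb⟩ := Inf_split c.inf (fun y => TZ Z x y)
    have hb' : Inf (fun y => c.X y && decide (0 ≤ y ∧ ∀ e ∈ ({x} : Finset ℕ), TZ Z e y = b)) := by
      intro k
      obtain ⟨y, hy, hX⟩ := hb k
      refine ⟨y, hy, ?_⟩
      simp only [Bool.and_eq_true, decide_eq_true_eq] at hX ⊢
      refine ⟨hX.1, by omega, ?_⟩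
      intro e he
      rw [Finset.mem_singleton] at he
      rw [he]; exact hX.2
    obtain ⟨c', k1, k2, k3⟩ := c_thin hC c c.F subset_rfl (fun x hx => Or.inl hx) 0 {x} b hb'
    refine ⟨c', k1, b, ?_⟩
    intro y hy
    rw [k3] at hy
    simp only [Bool.and_eq_true, decide_eq_true_eq] at hy
    exact hy.2.2 x (Finset.mem_singleton_self x)
  · obtain ⟨y, hy, hX⟩ := c.inf m
    obtain ⟨c', k1, k2, k3⟩ := c_thin hC c (c.F ∪ {y}) Finset.subset_union_left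
      (fun x hx => by
        rcases Finset.mem_union.mp hx with h | h
        · exact Or.inl h
        · rw [Finset.mem_singleton] at h
          rw [h]; exact Or.inr hX) 0 ∅ true (inf_ge c.inf Z 0 true)
    refine ⟨c', k1, y, ?_, hy⟩
    rw [k2]
    exact Finset.mem_union_right _ (Finset.mem_singleton_self y)

open Classical in
/-- cohesive sets -/
theorem coh (hC : Cl 𝒞) (hA : Av 𝒞 C Z) :
    ∃ G : Om, Inf G ∧ Av 𝒞 C (jn Z G) ∧
      ∀ x, ∃ b, ∃ N, ∀ y, N ≤ y → G y = true → TZ Z x y = b := by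
  have : Countable 𝒞 := hC.cnt.to_subtype
  have : Nonempty 𝒞 := ⟨⟨_, hC.emp⟩⟩
  obtain ⟨e, he⟩ := exists_surjective_nat (CRq 𝒞)
  let C0 : CC 𝒞 C Z := {
    F := ∅
    X := fun _ => true
    av := Av_cmp (S := S3) hC.s3 hA
    inf := fun m => ⟨m, le_rfl, rfl⟩ }
  choose nxt hx1 hx2 using fun (c : CC 𝒞 C Z) (n : ℕ) => c_step hC c (e n)
  let S : ℕ → CC 𝒞 C Z := fun n => Nat.rec C0 (fun n c => nxt c n) n
  have hS1 : ∀ n, CExt (S n) (S (n + 1)) := fun n => hx1 (S n) n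
  have hS2 : ∀ n, CSat (S (n + 1)) (e n) := fun n => hx2 (S n) n
  have hmono : ∀ n m, n ≤ m → CExt (S n) (S m) := by
    intro n m h
    induction h with
    | refl => exact CExt.refl _
    | step _ ih => exact ih.trans (hS1 _)
  have hsat : ∀ ρ : CRq 𝒞, ∃ n, CSat (S n) ρ := by
    intro ρ
    obtain ⟨n, hn⟩ := he ρ
    exact ⟨n + 1, by rw [← hn]; exact hS2 n⟩
  let G : Om := fun x => decide (∃ n, x ∈ (S n).F)
  have hGx : ∀ x, G x = true ↔ ∃ n, x ∈ (S n).F := fun x => by simp [G]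
  have hnew : ∀ n x, G x = true → x ∈ (S n).F ∨ (S n).X x = true := by
    intro n x hx
    obtain ⟨m, hm⟩ := (hGx x).mp hx
    rcases le_total m n with h | h
    · exact Or.inl ((hmono m n h).sub hm)
    · exact (hmono n m h).new x hm
  have hold : ∀ n, ∀ x ∈ (S n).F, G x = true := fun n x hx => (hGx x).mpr ⟨n, hx⟩
  refine ⟨G, ?_, ?_, ?_⟩
  · intro m
    obtain ⟨n, f, hf, hfm⟩ := hsat (.inr (.inr m))
    exact ⟨f, hfm, hold n f hf⟩
  · intro Ψ hΨ heq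
    obtain ⟨n, h | h⟩ := hsat (.inl ⟨Ψ, hΨ⟩)
    · obtain ⟨ν, h1, h2⟩ := h
      apply neg_final (hC.op Ψ hΨ) h2 (hold n) (hnew n) (fun E _ => trivial)
      rw [heq]; exact h1
    · obtain ⟨ν, h1, n', h2, h3⟩ := h
      apply h1
      rw [← heq]
      exact pos_final h2 h3 (hold n) (hnew n)
  · intro x
    obtain ⟨n, b, hb⟩ := hsat (.inr (.inl x))
    refine ⟨b, (S n).F.sup id + 1, fun y hy hG => ?_⟩
    rcases hnew n y hG with h | h
    · have : y ≤ (S n).F.sup id := Finset.le_sup (f := id) h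
      omega
    · exact hb y h

end Pool.Agent.HTS
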