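import Mathlib
import Pool.Agent.HTS.Basic

/-!
Ground lemma: a generic injection whose range is not computed by it.
-/

namespace Pool.Agent.HTS

open Pool.Agent.EMP Pool.Agent.HT2

/-- the graph of a function as an oracle -/
def ce (e : ℕ → ℕ) : Om := fun n => decide (e n.unpair.1 = n.unpair.2)

/-- the range of a function as an oracle -/
noncomputable def rg (e : ℕ → ℕ) : Om := open Classical in fun n => decide (∃ x, e x = n)

lemma ce_agr {e e' : ℕ → ℕ} {n : ℕ} (h : ∀ x, x < n → e x = e' x) : agr n (ce e) (ce e') := by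
  intro i hi
  unfold ce
  have h1 : i.unpair.1 ≤ i := Nat.unpair_left_le i
  rw [h _ (by omega)]

/-- conditions -/
structure GC where
  s : ℕ
  f : ℕ → ℕ
  R : Finset ℕ
  inj : Function.Injective f
  av : ∀ x, f x ∉ R

/-- the total functions compatible with a condition -/
def GCo (p : GC) (e : ℕ → ℕ) : Prop :=
  (∀ x, x < p.s → e x = p.f x) ∧ Function.Injective e ∧ ∀ x, e x ∉ p.R

lemma exists_total (N : ℕ) (g : ℕ → ℕ) (R : Finset ℕ)
    (hinj : ∀ x y, x < N → y < N → g x = g y → x = y) (hav : ∀ x, x < N → g x ∉ R) :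
    ∃ f : ℕ → ℕ, (∀ x, x < N → f x = g x) ∧ Function.Injective f ∧ ∀ x, f x ∉ R := by
  let M : ℕ := max ((Finset.range N).sup g) (R.sup id) + 1
  have hM1 : ∀ x, x < N → g x < M := by
    intro x hx
    have : g x ≤ (Finset.range N).sup g := Finset.le_sup (f := g) (Finset.mem_range.mpr hx)
    omega
  have hM2 : ∀ r ∈ R, r < M := by
    intro r hr
    have : r ≤ R.sup id := Finset.le_sup (f := id) hr
    omega
  refine ⟨fun x => if x < N then g x else x + M, ?_, ?_, ?_⟩
  · intro x hx
    simp [hx]
  · intro x y hxy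
    by_cases hx : x < N <;> by_cases hy : y < N
    · simp only [hx, hy, if_true] at hxy
      exact hinj x y hx hy hxy
    · simp only [hx, hy, if_true, if_false] at hxy
      have := hM1 x hx
      omega
    · simp only [hx, hy, if_true, if_false] at hxy
      have := hM1 y hy
      omega
    · simp only [hx, hy, if_false] at hxy
      omega
  · intro x
    by_cases hx : x < N
    · simp only [hx, if_true]; exact hav x hx
    · simp only [hx, if_false]
      intro h
      have := hM2 _ h
      omega

lemma g_step {Ψ : Opr} (hΨ : OpenO Ψ) (p : GC) :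
    ∃ q : GC, p.s < q.s ∧ (∀ e, GCo q e → GCo p e) ∧ ∀ e, GCo q e → Ψ (ce e) ≠ gr (rg e) := by
  classical
  -- a fresh number
  obtain ⟨k, hkR, hkf⟩ : ∃ k, k ∉ p.R ∧ ∀ x, x < p.s → p.f x ≠ k := by
    refine ⟨max ((Finset.range p.s).sup p.f) (p.R.sup id) + 1, ?_, ?_⟩
    · intro h
      have := Finset.le_sup (f := id) h
      simp only [id] at this
      have h2 : p.R.sup id ≤ max ((Finset.range p.s).sup p.f) (p.R.sup id) := le_max_right _ _
      have h3 : (max ((Finset.range p.s).sup p.f) (p.R.sup id) + 1) ≤ p.R.sup id := this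
      omega
    · intro x hx h
      have : p.f x ≤ (Finset.range p.s).sup p.f :=
        Finset.le_sup (f := p.f) (Finset.mem_range.mpr hx)
      omega
  by_cases hcase : ∃ g : ℕ → ℕ, GCo p g ∧ (∀ x, g x ≠ k) ∧ (k, 0) ∈ Ψ (ce g)
  · obtain ⟨g, ⟨hg1, hg2, hg3⟩, hgk, hgΨ⟩ := hcase
    obtain ⟨N0, hN0⟩ := hΨ _ _ hgΨ
    let N : ℕ := max N0 p.s
    obtain ⟨f, hf1, hf2, hf3⟩ := exists_total (N + 1) (fun x => if x < N then g x else k) p.R
      (by
        intro x y hx hy hxy
        by_cases hx' : x < N <;> by_cases hy' : y < N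
        · simp only [hx', hy', if_true] at hxy
          exact hg2 hxy
        · simp only [hx', hy', if_true, if_false] at hxy
          exact absurd hxy (hgk x)
        · simp only [hx', hy', if_true, if_false] at hxy
          exact absurd hxy.symm (hgk y)
        · omega)
      (by
        intro x _
        by_cases hx' : x < N
        · simp only [hx', if_true]; exact hg3 x
        · simp only [hx', if_false]; exact hkR)
    have hfg : ∀ x, x < N → f x = g x := by
      intro x hx
      rw [hf1 x (by omega)]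
      simp [hx]
    have hfk : f N = k := by
      rw [hf1 N (by omega)]
      simp
    refine ⟨⟨N + 1, f, p.R, hf2, hf3⟩, ?_, ?_, ?_⟩
    · show p.s < N + 1
      omega
    · rintro e ⟨he1, he2, he3⟩
      refine ⟨fun x hx => ?_, he2, he3⟩
      have h1 : e x = f x := he1 x (by show x < N + 1; omega)
      rw [h1, hfg x (by omega), hg1 x hx]
    · rintro e ⟨he1, he2, he3⟩ heq
      have h1 : agr N0 (ce g) (ce e) := by
        apply ce_agr
        intro x hx
        have h2 : e x = f x := he1 x (by show x < N + 1; omega)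
        rw [h2, hfg x (by omega)]
      have h2 := hN0 _ h1
      rw [heq] at h2
      have h3 : e N = k := by
        rw [← hfk]; exact he1 N (by show N < N + 1; omega)
      have h4 : rg e k = true := by
        unfold rg
        rw [decide_eq_true_eq]
        exact ⟨N, h3⟩
      have h5 : (0 : ℕ) = if rg e k = true then 1 else 0 := h2
      rw [h4] at h5
      simp at h5
  · obtain ⟨f, hf1, hf2, hf3⟩ := exists_total p.s p.f (insert k p.R)
      (fun x y _ _ h => p.inj h)
      (by
        intro x hx h
        rcases Finset.mem_insert.mp h with h | h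
        · exact hkf x hx h
        · exact p.av x h)
    refine ⟨⟨p.s + 1, f, insert k p.R, hf2, hf3⟩, Nat.lt_succ_self _, ?_, ?_⟩
    · rintro e ⟨he1, he2, he3⟩
      refine ⟨fun x hx => ?_, he2, fun x h => he3 x (Finset.mem_insert_of_mem h)⟩
      have h1 : e x = f x := he1 x (by show x < p.s + 1; omega)
      rw [h1, hf1 x hx]
    · rintro e ⟨he1, he2, he3⟩ heq
      apply hcase
      have hek : ∀ x, e x ≠ k := fun x h => he3 x (by
        show e x ∈ insert k p.R
        rw [h]; exact Finset.mem_insert_self _ _)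
      refine ⟨e, ⟨fun x hx => ?_, he2, fun x h => he3 x (Finset.mem_insert_of_mem h)⟩, hek, ?_⟩
      · have h1 : e x = f x := he1 x (by show x < p.s + 1; omega)
        rw [h1, hf1 x hx]
      · rw [heq]
        show (0 : ℕ) = if rg e k = true then 1 else 0
        have : rg e k = false := by
          unfold rg
          rw [decide_eq_false_iff_not]
          rintro ⟨x, hx⟩
          exact hek x hx
        rw [this]; simp

/-- the ground lemma -/
theorem ground {𝒞 : Set Opr} (hc : 𝒞.Countable) (ho : ∀ Ψ ∈ 𝒞, OpenO Ψ) (hne : 𝒞.Nonempty) :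
    ∃ e : ℕ → ℕ, Function.Injective e ∧ Av 𝒞 (rg e) (ce e) := by
  have : Countable 𝒞 := hc.to_subtype
  have : Nonempty 𝒞 := hne.to_subtype
  obtain ⟨en, hen⟩ := exists_surjective_nat 𝒞
  choose nxt h1 h2 h3 using fun (p : GC) (n : ℕ) => g_step (ho _ (en n).2) p
  let S : ℕ → GC := fun n => Nat.rec ⟨0, id, ∅, Function.injective_id, fun x h => by simp at h⟩
    (fun n p => nxt p n) n
  have hs : ∀ n, (S n).s < (S (n + 1)).s := fun n => h1 (S n) n
  have hco : ∀ n, ∀ e, GCo (S (n + 1)) e → GCo (S n) e := fun n => h2 (S n) n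
  have hsat : ∀ n, ∀ e, GCo (S (n + 1)) e → (en n).1 (ce e) ≠ gr (rg e) := fun n => h3 (S n) n
  have hmono : ∀ n m, n ≤ m → (S n).s ≤ (S m).s ∧ ∀ e, GCo (S m) e → GCo (S n) e := by
    intro n m h
    induction h with
    | refl => exact ⟨le_rfl, fun _ h => h⟩
    | step _ ih => exact ⟨ih.1.trans (hs _).le, fun e he => ih.2 e (hco _ e he)⟩
  have hself : ∀ n, GCo (S n) (S n).f := fun n => ⟨fun _ _ => rfl, (S n).inj, (S n).av⟩
  have hbig : ∀ n, n ≤ (S n).s := by
    intro n
    induction n with
    | zero => exact Nat.zero_le _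
    | succ n ih => have := hs n; omega
  have hag : ∀ n m x, n ≤ m → x < (S n).s → (S m).f x = (S n).f x := fun n m x hnm hx =>
    ((hmono n m hnm).2 _ (hself m)).1 x hx
  let e : ℕ → ℕ := fun x => (S (x + 1)).f x
  have he : ∀ n x, x < (S n).s → e x = (S n).f x := by
    intro n x hx
    have hx1 : x < (S (x + 1)).s := lt_of_lt_of_le (Nat.lt_succ_self x) (hbig (x + 1))
    rcases le_total n (x + 1) with h | h
    · exact hag n (x + 1) x h hx
    · exact (hag (x + 1) n x h hx1).symm
  have hinj : Function.Injective e := by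
    intro x y hxy
    let n : ℕ := max x y + 1
    have hb := hbig n
    rw [he n x (by omega), he n y (by omega)] at hxy
    exact (S n).inj hxy
  have hall : ∀ n, GCo (S n) e := by
    intro n
    refine ⟨he n, hinj, fun x => ?_⟩
    let m : ℕ := max n (x + 1)
    have hb := hbig m
    rw [he m x (by omega)]
    exact ((hmono n m (le_max_left _ _)).2 _ (hself m)).2.2 x
  refine ⟨e, hinj, ?_⟩
  intro Ψ hΨ
  obtain ⟨n, hn⟩ := hen ⟨Ψ, hΨ⟩
  have := hsat n e (hall (n + 1))
  rw [hn] at this
  exact this

end Pool.Agent.HTS
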