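import Mathlib
import Pool.Agent.HTS.Coh

/-!
Homogeneous sets avoiding a cone, for colourings that are stable on the reservoir.
-/

namespace Pool.Agent.HTS

open Pool.Agent.EMP Pool.Agent.HT2

/-- conditions -/
structure HC (𝒞 : Set Opr) (C Z G : Om) where
  F : Bool → Finset ℕ
  X : Om
  av : Av 𝒞 C (jn Z X)
  inf : Inf X
  sub : ∀ y, X y = true → G y = true
  fut : ∀ i, ∀ f ∈ F i, ∀ y, X y = true → f < y ∧ TZ Z f y = i
  hom : ∀ i, Hom (TZ Z) i (F i)

/-- requirements -/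
abbrev HRq (𝒞 : Set Opr) := 𝒞 ⊕ ℕ

variable {𝒞 : Set Opr} {C Z G : Om}

/-- extension -/
structure HExt (c c' : HC 𝒞 C Z G) : Prop where
  sub : ∀ i, c.F i ⊆ c'.F i
  new : ∀ i, ∀ x ∈ c'.F i, x ∈ c.F i ∨ c.X x = true
  res : ∀ y, c'.X y = true → c.X y = true

lemma HExt.refl (c : HC 𝒞 C Z G) : HExt c c :=
  ⟨fun _ => subset_rfl, fun _ _ h => Or.inl h, fun _ h => h⟩

lemma HExt.trans {c c' c'' : HC 𝒞 C Z G} (h : HExt c c') (h' : HExt c' c'') : HExt c c'' :=
  ⟨fun i => (h.sub i).trans (h'.sub i), fun i x hx => by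
    rcases h'.new i x hx with h1 | h1
    · exact h.new i x h1
    · exact Or.inr (h.res x h1), fun y hy => h.res y (h'.res y hy)⟩

/-- a requirement is forced on side `i` -/
def HSat (c : HC 𝒞 C Z G) (i : Bool) : HRq 𝒞 → Prop
  | .inl Ψ =>
    (∃ ν ∈ gr C, ∀ (n : ℕ) (E : Finset ℕ), (∀ e ∈ E, c.X e = true) → HomO (TZ Z) (some i) E →
      ν ∉ AtO Ψ.1 (2 * n) (jn Z (chF (c.F i ∪ E)))) ∨
    (∃ ν, ν ∉ gr C ∧ ∃ n, ν ∈ AtO Ψ.1 (2 * n) (jn Z (chF (c.F i))) ∧
      ∀ y, c.X y = true → n ≤ y)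
  | .inr m => ∃ f ∈ c.F i, m ≤ f

/-- restricting the reservoir -/
lemma h_restr (c : HC 𝒞 C Z G) (X : Om) (hav : Av 𝒞 C (jn Z X)) (hinf : Inf X)
    (hsub : ∀ y, X y = true → c.X y = true) :
    ∃ c' : HC 𝒞 C Z G, HExt c c' ∧ c'.F = c.F ∧ c'.X = X :=
  ⟨⟨c.F, X, hav, hinf, fun y hy => c.sub y (hsub y hy),
    fun i f hf y hy => c.fut i f hf y (hsub y hy), c.hom⟩,
    ⟨fun _ => subset_rfl, fun _ _ h => Or.inl h, hsub⟩, rfl, rfl⟩

/-- adding a finite homogeneous set with the right limit colour -/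
lemma h_ext (hC : Cl 𝒞) {A : Om} (hst : ∀ x, ∃ N, ∀ y, N ≤ y → G y = true → TZ Z x y = A x)
    (c : HC 𝒞 C Z G) (i : Bool) (E : Finset ℕ) (hE : ∀ e ∈ E, c.X e = true)
    (hA : ∀ e ∈ E, A e = i) (hh : Hom (TZ Z) i E) (n : ℕ) :
    ∃ c' : HC 𝒞 C Z G, HExt c c' ∧ c'.F i = c.F i ∪ E ∧ ∀ y, c'.X y = true → n ≤ y := by
  classical
  let m : ℕ := max n (E.sup id + 1)
  let X' : Om := fun y => c.X y && decide (m ≤ y ∧ ∀ e ∈ E, TZ Z e y = i)
  have hX' : ∀ y, X' y = true ↔ c.X y = true ∧ m ≤ y ∧ ∀ e ∈ E, TZ Z e y = i := by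
    intro y
    simp only [X', Bool.and_eq_true, decide_eq_true_eq]
  have hav : Av 𝒞 C (jn Z X') := by
    have := Av_cmp (S := SX m E i) (fun Ψ hΨ => hC.sx Ψ hΨ m E i) c.av
    rw [SX_jn] at this
    exact this
  choose N hN using hst
  have hinf : Inf X' := by
    intro k
    obtain ⟨y, hy, hX⟩ := c.inf (max k (max m (E.sup N)))
    refine ⟨y, by omega, (hX' y).mpr ⟨hX, by omega, fun e he => ?_⟩⟩
    have h1 : N e ≤ E.sup N := Finset.le_sup (f := N) he
    rw [hN e y (by omega) (c.sub y hX)]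
    exact hA e he
  let F' : Bool → Finset ℕ := Function.update c.F i (c.F i ∪ E)
  have hF'i : F' i = c.F i ∪ E := Function.update_self _ _ _
  have hF'o : ∀ i', i' ≠ i → F' i' = c.F i' := fun i' h => Function.update_of_ne h _ _
  refine ⟨⟨F', X', hav, hinf, fun y hy => c.sub y ((hX' y).mp hy).1, ?_, ?_⟩, ⟨?_, ?_, ?_⟩,
    hF'i, ?_⟩
  · intro i' f hf y hy
    obtain ⟨y1, y2, y3⟩ := (hX' y).mp hy
    by_cases hii : i' = i
    · subst hii
      rw [hF'i] at hf
      rcases Finset.mem_union.mp hf with h | h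
      · exact c.fut _ f h y y1
      · refine ⟨?_, y3 f h⟩
        have : f ≤ E.sup id := Finset.le_sup (f := id) h
        omega
    · rw [hF'o i' hii] at hf
      exact c.fut _ f hf y y1
  · intro i'
    by_cases hii : i' = i
    · subst hii
      rw [hF'i]
      intro e he e' he' hlt
      rcases Finset.mem_union.mp he with h | h <;> rcases Finset.mem_union.mp he' with h' | h'
      · exact c.hom _ e h e' h' hlt
      · exact (c.fut _ e h e' (hE e' h')).2
      · exfalso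
        have := (c.fut _ e' h' e (hE e h)).1
        omega
      · exact hh e h e' h' hlt
    · rw [hF'o i' hii]; exact c.hom _
  · intro i'
    by_cases hii : i' = i
    · subst hii
      show c.F i' ⊆ F' i'
      rw [hF'i]; exact Finset.subset_union_left
    · show c.F i' ⊆ F' i'
      rw [hF'o i' hii]
  · intro i' x hx
    have hx : x ∈ F' i' := hx
    by_cases hii : i' = i
    · subst hii
      rw [hF'i] at hx
      rcases Finset.mem_union.mp hx with h | h
      · exact Or.inl h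
      · exact Or.inr (hE x h)
    · rw [hF'o i' hii] at hx
      exact Or.inl hx
  · intro y hy
    exact ((hX' y).mp hy).1
  · intro y hy
    have := ((hX' y).mp hy).2.1
    omega

/-- one side only: the reservoir is contained in one class of the limit partition -/
lemma h_one (hC : Cl 𝒞) {A : Om} (hst : ∀ x, ∃ N, ∀ y, N ≤ y → G y = true → TZ Z x y = A x)
    (c : HC 𝒞 C Z G) (i : Bool) (hA : ∀ y, c.X y = true → A y = i) (ρ : HRq 𝒞) :
    ∃ c' : HC 𝒞 C Z G, HExt c c' ∧ HSat c' i ρ := by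
  rcases ρ with Ψ | m
  · have h := c.av _ (hC.r Ψ.1 Ψ.2 (some i) (c.F i))
    by_cases h1 : ∃ ν ∈ gr C, ν ∉ opR Ψ.1 (some i) (c.F i) (jn Z c.X)
    · obtain ⟨ν, h2, h3⟩ := h1
      refine ⟨c, HExt.refl c, Or.inl ⟨ν, h2, ?_⟩⟩
      intro n E hE hH hcon
      apply h3
      refine ⟨n, E, ?_, ?_, ?_⟩
      · rw [od_jn]; exact hE
      · rw [ev_jn]; exact hH
      · rw [ev_jn]; exact hcon
    · push Not at h1
      have h2 : ∃ ν ∈ opR Ψ.1 (some i) (c.F i) (jn Z c.X), ν ∉ gr C := by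
        by_contra hcon
        push Not at hcon
        exact h (Set.Subset.antisymm hcon h1)
      obtain ⟨ν, ⟨n, E, g1, g2, g3⟩, h4⟩ := h2
      rw [od_jn] at g1
      rw [ev_jn] at g2 g3
      obtain ⟨c', k1, k2, k3⟩ := h_ext hC hst c i E g1 (fun e he => hA e (g1 e he)) g2 n
      refine ⟨c', k1, Or.inr ⟨ν, h4, n, ?_, k3⟩⟩
      rw [k2]; exact g3
  · obtain ⟨y, hy, hX⟩ := c.inf m
    obtain ⟨c', k1, k2, k3⟩ := h_ext hC hst c i {y}
      (fun e he => by rw [Finset.mem_singleton] at he; rw [he]; exact hX)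
      (fun e he => by rw [Finset.mem_singleton] at he; rw [he]; exact hA y hX)
      (fun e he e' he' hlt => by
        rw [Finset.mem_singleton] at he he'; omega) 0
    refine ⟨c', k1, y, ?_, hy⟩
    rw [k2]
    exact Finset.mem_union_right _ (Finset.mem_singleton_self y)

/-- an infinity requirement on side `i` can be met or the other side is everything -/
lemma h_inf (hC : Cl 𝒞) {A : Om} (hst : ∀ x, ∃ N, ∀ y, N ≤ y → G y = true → TZ Z x y = A x)
    (c : HC 𝒞 C Z G) (r : Bool → HRq 𝒞) (i : Bool) (m : ℕ) (hr : r i = .inr m) :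
    ∃ c' : HC 𝒞 C Z G, HExt c c' ∧ ∃ i, HSat c' i (r i) := by
  by_cases h : ∃ y, m ≤ y ∧ c.X y = true ∧ A y = i
  · obtain ⟨y, h1, h2, h3⟩ := h
    obtain ⟨c', k1, k2, k3⟩ := h_ext hC hst c i {y}
      (fun e he => by rw [Finset.mem_singleton] at he; rw [he]; exact h2)
      (fun e he => by rw [Finset.mem_singleton] at he; rw [he]; exact h3)
      (fun e he e' he' hlt => by
        rw [Finset.mem_singleton] at he he'; omega) 0
    refine ⟨c', k1, i, ?_⟩
    rw [hr]
    refine ⟨y, ?_, h1⟩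
    rw [k2]
    exact Finset.mem_union_right _ (Finset.mem_singleton_self y)
  · push Not at h
    have hav := Av_cmp (S := SX m ∅ true) (fun Ψ hΨ => hC.sx Ψ hΨ m ∅ true) c.av
    rw [SX_jn] at hav
    obtain ⟨c1, g1, g2, g3⟩ := h_restr c _ hav (inf_ge c.inf Z m true) (by
      intro y hy
      simp only [Bool.and_eq_true] at hy
      exact hy.1)
    obtain ⟨c', k1, k2⟩ := h_one hC hst c1 (!i) (by
      intro y hy
      rw [g3] at hy
      simp only [Bool.and_eq_true, decide_eq_true_eq] at hy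
      have := h y hy.2.1 hy.1
      cases i <;> simpa using this) (r (!i))
    exact ⟨c', g1.trans k1, !i, k2⟩

lemma h_step (hC : Cl 𝒞) {A : Om} (hst : ∀ x, ∃ N, ∀ y, N ≤ y → G y = true → TZ Z x y = A x)
    (c : HC 𝒞 C Z G) (r : Bool → HRq 𝒞) :
    ∃ c' : HC 𝒞 C Z G, HExt c c' ∧ ∃ i, HSat c' i (r i) := by
  rcases h0 : r false with Ψ0 | m0
  · rcases h1 : r true with Ψ1 | m1
    · -- both requirements are operators
      let Q : Opr := uU (cmpO (opR Ψ0.1 (some false) (c.F false)) (SP false))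
        (cmpO (opR Ψ1.1 (some true) (c.F true)) (SP true))
      have hQ : Q ∈ 𝒞 := hC.u _ (hC.sp _ (hC.r _ Ψ0.2 _ _) _) _ (hC.sp _ (hC.r _ Ψ1.2 _ _) _)
      have hside : ∀ i : Bool, ∃ Ψ : 𝒞, r i = .inl Ψ ∧
          (∀ P ν, ν ∈ opR Ψ.1 (some i) (c.F i) (SP i (jn (jn Z c.X) P)) →
            ν ∈ Q (jn (jn Z c.X) P)) := by
        intro i
        cases i
        · exact ⟨Ψ0, h0, fun P ν h => Or.inl h⟩
        · exact ⟨Ψ1, h1, fun P ν h => Or.inr h⟩
      rcases dich hC.toClB c.av hQ hC.emp with h | h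
      · -- negative case
        obtain ⟨P, _, hav, ν, hν, hn⟩ := h
        obtain ⟨i, hi⟩ := Inf_split c.inf P
        have hav' := Av_cmp (S := SP i) (fun Ψ hΨ => hC.sp Ψ hΨ i) hav
        obtain ⟨Ψ, hr, hΨ⟩ := hside i
        rw [SP_jn] at hav'
        obtain ⟨c1, g1, g2, g3⟩ := h_restr c _ hav' hi (by
          intro y hy
          simp only [Bool.and_eq_true] at hy
          exact hy.1)
        refine ⟨c1, g1, i, ?_⟩
        rw [hr]
        refine Or.inl ⟨ν, hν, fun n E hE hH hcon => hn (hΨ P ν ?_)⟩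
        rw [SP_jn, ← g3, ← g2]
        refine ⟨n, E, ?_, ?_, ?_⟩
        · rw [od_jn]; exact hE
        · rw [ev_jn]; exact hH
        · rw [ev_jn]; exact hcon
      · -- positive case
        obtain ⟨ν, hν, hn⟩ := h A rfl
        have key : ∃ (i : Bool) (Ψ : 𝒞), r i = .inl Ψ ∧
            ν ∈ opR Ψ.1 (some i) (c.F i) (SP i (jn (jn Z c.X) A)) := by
          rcases hν with h | h
          · exact ⟨false, Ψ0, h0, h⟩
          · exact ⟨true, Ψ1, h1, h⟩
        obtain ⟨i, Ψ, hr, n, E, g1, g2, g3⟩ := key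
        rw [SP_jn, od_jn] at g1
        rw [SP_jn, ev_jn] at g2 g3
        simp only [Bool.and_eq_true, decide_eq_true_eq] at g1
        obtain ⟨c', k1, k2, k3⟩ := h_ext hC hst c i E (fun e he => (g1 e he).1)
          (fun e he => (g1 e he).2) g2 n
        refine ⟨c', k1, i, ?_⟩
        rw [hr]
        refine Or.inr ⟨ν, hn, n, ?_, k3⟩
        rw [k2]; exact g3
    · exact h_inf hC hst c r true m1 h1
  · exact h_inf hC hst c r false m0 h0

open Classical in
/-- homogeneous sets -/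
theorem homog (hC : Cl 𝒞) {A : Om} (hst : ∀ x, ∃ N, ∀ y, N ≤ y → G y = true → TZ Z x y = A x)
    (hG : Inf G) (hA : Av 𝒞 C (jn Z G)) :
    ∃ (i : Bool) (H : Om), Inf H ∧ (∀ x y, x < y → H x = true → H y = true → TZ Z x y = i) ∧
      Av 𝒞 C (jn Z H) := by
  have : Countable 𝒞 := hC.cnt.to_subtype
  have : Nonempty 𝒞 := ⟨⟨_, hC.emp⟩⟩
  obtain ⟨e, he⟩ := exists_surjective_nat (Bool → HRq 𝒞)
  let C0 : HC 𝒞 C Z G := {
    F := fun _ => ∅
    X := G
    av := hA
    inf := hG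
    sub := fun _ h => h
    fut := fun i f hf => absurd hf (Finset.notMem_empty _)
    hom := fun i f hf => absurd hf (Finset.notMem_empty _) }
  choose nxt hx1 hx2 using fun (c : HC 𝒞 C Z G) (n : ℕ) => h_step hC hst c (e n)
  let S : ℕ → HC 𝒞 C Z G := fun n => Nat.rec C0 (fun n c => nxt c n) n
  have hS1 : ∀ n, HExt (S n) (S (n + 1)) := fun n => hx1 (S n) n
  have hS2 : ∀ n, ∃ i, HSat (S (n + 1)) i (e n i) := fun n => hx2 (S n) n
  have hmono : ∀ n m, n ≤ m → HExt (S n) (S m) := by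
    intro n m h
    induction h with
    | refl => exact HExt.refl _
    | step _ ih => exact ih.trans (hS1 _)
  have hside : ∃ i, ∀ ρ : HRq 𝒞, ∃ n, HSat (S n) i ρ := by
    by_contra hcon
    push Not at hcon
    choose ρ hρ using hcon
    obtain ⟨n, hn⟩ := he ρ
    obtain ⟨i, hi⟩ := hS2 n
    rw [hn] at hi
    exact hρ i (n + 1) hi
  obtain ⟨i, hi⟩ := hside
  let H : Om := fun x => decide (∃ n, x ∈ (S n).F i)
  have hGx : ∀ x, H x = true ↔ ∃ n, x ∈ (S n).F i := fun x => by simp [H]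
  have hnew : ∀ n x, H x = true → x ∈ (S n).F i ∨ (S n).X x = true := by
    intro n x hx
    obtain ⟨m, hm⟩ := (hGx x).mp hx
    rcases le_total m n with h | h
    · exact Or.inl ((hmono m n h).sub i hm)
    · exact (hmono n m h).new i x hm
  have hold : ∀ n, ∀ x ∈ (S n).F i, H x = true := fun n x hx => (hGx x).mpr ⟨n, hx⟩
  have hhom : ∀ x y, x < y → H x = true → H y = true → TZ Z x y = i := by
    intro x y hlt hx hy
    obtain ⟨n, hn⟩ := (hGx x).mp hx
    obtain ⟨m, hm⟩ := (hGx y).mp hy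
    exact (S (max n m)).hom i x ((hmono _ _ (le_max_left n m)).sub i hn) y
      ((hmono _ _ (le_max_right n m)).sub i hm) hlt
  refine ⟨i, H, ?_, hhom, ?_⟩
  · intro m
    obtain ⟨n, f, hf, hfm⟩ := hi (.inr m)
    exact ⟨f, hfm, hold n f hf⟩
  · intro Ψ hΨ heq
    obtain ⟨n, h | h⟩ := hi (.inl ⟨Ψ, hΨ⟩)
    · obtain ⟨ν, h1, h2⟩ := h
      apply neg_final (hC.op Ψ hΨ) h2 (hold n) (hnew n)
        (fun E hE x hx y hy hlt => hhom x y hlt (hE x hx) (hE y hy))
      rw [heq]; exact h1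
    · obtain ⟨ν, h1, n', h2, h3⟩ := h
      apply h1
      rw [← heq]
      exact pos_final h2 h3 (hold n) (hnew n)

/-- Ramsey's theorem for pairs and two colours, avoiding a cone -/
theorem rt22 (hC : Cl 𝒞) (hA : Av 𝒞 C Z) :
    ∃ (i : Bool) (H : Om), Inf H ∧ (∀ x y, x < y → H x = true → H y = true → TZ Z x y = i) ∧
      Av 𝒞 C (jn Z H) := by
  obtain ⟨G, h1, h2, h3⟩ := coh hC hA
  choose A hst using h3
  exact homog hC hst h1 h2

end Pool.Agent.HTS
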