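import Mathlib
import Pool.Agent.HTS.Homo
import Pool.Agent.HTS.Ground

/-!
Seetapun's theorem: the iteration.
-/

namespace Pool.Agent.HTS

open Pool.Agent.EMP Pool.Agent.HT2

/-- the graph of the odd part -/
def oK : Opr := fun V => gr (od V)

lemma oK_open : OpenO oK := by
  intro V ν h
  refine ⟨2 * ν.1 + 2, fun V' hV' => ?_⟩
  have h1 : od V' ν.1 = od V ν.1 := (hV' (2 * ν.1 + 1) (by omega)).symm
  have h2 : ν.2 = if od V ν.1 = true then 1 else 0 := h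
  show ν.2 = if od V' ν.1 = true then 1 else 0
  rw [h1]; exact h2

lemma oT_eq {Ψ : Opr} (ho : OpenO Ψ) {Y T : Om} {e : Cd} (he : ∀ n v, v ∈ orc T n ↔ Ev Y e n v) :
    oT Ψ e Y = Ψ (jn Y T) := by
  ext ν
  constructor
  · rintro ⟨u, R, h1, h2⟩
    apply h2
    apply agr_jn (agr_refl _ _)
    intro i hi
    have h3 := (he i _).mpr (h1 i hi)
    unfold orc at h3
    rw [Part.mem_some_iff] at h3
    by_cases hiR : i ∈ R
    · simp only [hiR, if_true] at h3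
      simp only [chF, hiR, decide_true]
      cases hTi : T i
      · rw [hTi] at h3; simp at h3
      · rfl
    · simp only [hiR, if_false] at h3
      simp only [chF, hiR, decide_false]
      cases hTi : T i
      · rfl
      · rw [hTi] at h3; simp at h3
  · intro hν
    obtain ⟨n, hn⟩ := exists_AtO ho hν
    refine ⟨n, (Finset.range n).filter (fun i => T i = true), ?_, ?_⟩
    · intro i hi
      apply (he i _).mp
      unfold orc
      rw [Part.mem_some_iff]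
      simp [hi]
    · rw [← AtO_congr (W := jn Y T)]
      · exact AtO_mono (by omega) _ hn
      · apply agr_jn (agr_refl _ _)
        intro i hi
        simp [chF, hi]

lemma Av_T {𝒞 : Set Opr} (ho : ∀ Ψ ∈ 𝒞, OpenO Ψ) (hT : ∀ Ψ ∈ 𝒞, ∀ e, oT Ψ e ∈ 𝒞)
    {C Y T : Om} (hA : Av 𝒞 C Y) (h : TLE T Y) : Av 𝒞 C (jn Y T) := by
  obtain ⟨e, he⟩ := exists_code h
  intro Ψ hΨ heq
  apply hA (oT Ψ e) (hT Ψ hΨ e)
  rw [oT_eq (ho Ψ hΨ) he]
  exact heq

lemma Av_not {𝒞 : Set Opr} (ho : ∀ Ψ ∈ 𝒞, OpenO Ψ) (hT : ∀ Ψ ∈ 𝒞, ∀ e, oT Ψ e ∈ 𝒞)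
    (hK : oK ∈ 𝒞) {C Y : Om} (hA : Av 𝒞 C Y) : ¬ TLE C Y := by
  intro h
  have := Av_T ho hT hA h
  apply this _ hK
  unfold oK
  rw [od_jn]

/-- index type of the closure operations -/
abbrev IxS : Type :=
  Unit ⊕ (ℕ × ℕ) ⊕ (ℕ × Finset ℕ) ⊕ Unit ⊕ Unit ⊕ (Option Bool × Finset ℕ) ⊕
    (ℕ × Finset ℕ × Bool) ⊕ Bool ⊕ Unit ⊕ Unit ⊕ Cd

/-- the closure operations -/
def allOpsS : IxS → Opr → Opr → Opr
  | .inl _ => fun a b => uW a b
  | .inr (.inl ν) => fun a b => uN a b ν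
  | .inr (.inr (.inl (N, R))) => fun a _ => uF a N R
  | .inr (.inr (.inr (.inl _))) => fun _ _ => uE
  | .inr (.inr (.inr (.inr (.inl _)))) => fun a b => uU a b
  | .inr (.inr (.inr (.inr (.inr (.inl (i, F)))))) => fun a _ => opR a i F
  | .inr (.inr (.inr (.inr (.inr (.inr (.inl (m, E, b))))))) => fun a _ => cmpO a (SX m E b)
  | .inr (.inr (.inr (.inr (.inr (.inr (.inr (.inl b))))))) => fun a _ => cmpO a (SP b)
  | .inr (.inr (.inr (.inr (.inr (.inr (.inr (.inr (.inl _)))))))) => fun a _ => cmpO a S3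
  | .inr (.inr (.inr (.inr (.inr (.inr (.inr (.inr (.inr (.inl _))))))))) =>
      fun a _ => cmpO a S4
  | .inr (.inr (.inr (.inr (.inr (.inr (.inr (.inr (.inr (.inr e))))))))) => fun a _ => oT a e

theorem exists_Cl : ∃ 𝒞 : Set Opr, Cl 𝒞 ∧ oK ∈ 𝒞 ∧ ∀ Ψ ∈ 𝒞, ∀ e, oT Ψ e ∈ 𝒞 := by
  obtain ⟨𝒞, h1, h2, h3, h4⟩ := exists_closureO allOpsS oK oK_open (by
    intro i a b ha hb
    match i with
    | .inl _ => exact uW_open a b
    | .inr (.inl ν) => exact uN_open ha hb ν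
    | .inr (.inr (.inl (N, R))) => exact uF_open ha N R
    | .inr (.inr (.inr (.inl _))) => exact uE_open
    | .inr (.inr (.inr (.inr (.inl _)))) => exact uU_open ha hb
    | .inr (.inr (.inr (.inr (.inr (.inl (i, F)))))) => exact opR_open a i F
    | .inr (.inr (.inr (.inr (.inr (.inr (.inl (m, E, b))))))) =>
        exact cmpO_open ha (SX_cont m E b)
    | .inr (.inr (.inr (.inr (.inr (.inr (.inr (.inl b))))))) => exact cmpO_open ha (SP_cont b)
    | .inr (.inr (.inr (.inr (.inr (.inr (.inr (.inr (.inl _)))))))) => exact cmpO_open ha S3_cont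
    | .inr (.inr (.inr (.inr (.inr (.inr (.inr (.inr (.inr (.inl _))))))))) =>
        exact cmpO_open ha S4_cont
    | .inr (.inr (.inr (.inr (.inr (.inr (.inr (.inr (.inr (.inr e))))))))) => exact oT_open a e)
  refine ⟨𝒞, ⟨⟨h1, h3, ?_, ?_, ?_⟩, ?_, ?_, ?_, ?_, ?_, ?_, ?_⟩, h2, ?_⟩
  · exact fun Ψ hΨ D hD => h4 (.inl ()) Ψ hΨ D hD
  · exact fun Ψ hΨ D hD ν => h4 (.inr (.inl ν)) Ψ hΨ D hD
  · exact fun Ψ hΨ N R => h4 (.inr (.inr (.inl (N, R)))) Ψ hΨ Ψ hΨ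
  · exact h4 (.inr (.inr (.inr (.inl ())))) _ h2 _ h2
  · exact fun Ψ hΨ D hD => h4 (.inr (.inr (.inr (.inr (.inl ()))))) Ψ hΨ D hD
  · exact fun Ψ hΨ i F => h4 (.inr (.inr (.inr (.inr (.inr (.inl (i, F))))))) Ψ hΨ Ψ hΨ
  · exact fun Ψ hΨ m E b =>
      h4 (.inr (.inr (.inr (.inr (.inr (.inr (.inl (m, E, b)))))))) Ψ hΨ Ψ hΨ
  · exact fun Ψ hΨ b =>
      h4 (.inr (.inr (.inr (.inr (.inr (.inr (.inr (.inl b)))))))) Ψ hΨ Ψ hΨ
  · exact fun Ψ hΨ =>
      h4 (.inr (.inr (.inr (.inr (.inr (.inr (.inr (.inr (.inl ()))))))))) Ψ hΨ Ψ hΨ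
  · exact fun Ψ hΨ =>
      h4 (.inr (.inr (.inr (.inr (.inr (.inr (.inr (.inr (.inr (.inl ())))))))))) Ψ hΨ Ψ hΨ
  · exact fun Ψ hΨ e =>
      h4 (.inr (.inr (.inr (.inr (.inr (.inr (.inr (.inr (.inr (.inr e)))))))))) Ψ hΨ Ψ hΨ

/-- Seetapun's theorem, boldface form: an increasing sequence of oracles that solves every
instance of Ramsey's theorem for pairs and two colours but never computes the range of the
injection it starts with. -/
theorem model : ∃ (e : ℕ → ℕ) (W : ℕ → Om), Function.Injective e ∧ W 0 = ce e ∧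
    (∀ n, TLE (W n) (W (n + 1))) ∧
    (∀ n t, TLE t (W n) → ∃ m G, ∃ i : Bool, TLE G (W m) ∧ {x | G x = true}.Infinite ∧
      ∀ x y, x < y → G x = true → G y = true → t (Nat.pair x y) = i) ∧
    (∀ n, ¬ TLE (rg e) (W n)) := by
  obtain ⟨𝒞, hC, hK, hT⟩ := exists_Cl
  obtain ⟨e, hinj, hG0⟩ := ground hC.cnt hC.op ⟨_, hK⟩
  obtain ⟨W, h1, h2, h3, h4⟩ := bookkeeping (α := Om) (β := Om) (Av 𝒞 (rg e)) TLE TLE.refl
    (fun _ _ _ h h' => TLE.trans h h') (fun a t => TLE t a) (fun a a' t h h' => TLE.trans h' h)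
    (fun a t => ∃ G, ∃ i : Bool, TLE G a ∧ {x | G x = true}.Infinite ∧
      ∀ x y, x < y → G x = true → G y = true → t (Nat.pair x y) = i)
    (by
      intro a t ha ht
      have g1 := Av_T hC.op hT ha ht
      obtain ⟨i, G, g2, g3, g4⟩ := rt22 hC g1
      have g5 : Av 𝒞 (rg e) (jn a G) := by
        have := Av_cmp (S := S4) hC.s4 g4
        have heq : S4 (jn (jn a t) G) = jn a G := by
          unfold S4; rw [ev_jn, ev_jn, od_jn]
        rw [heq] at this; exact this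
      refine ⟨jn a G, g5, TLE_left a G, G, i, TLE_right a G, Inf_iff.mp g2, ?_⟩
      intro x y hxy hx hy
      have := g3 x y hxy hx hy
      unfold TZ at this
      rw [od_jn] at this
      exact this)
    enum_TLE (ce e) hG0
  refine ⟨e, W, hinj, h1, h3, ?_, ?_⟩
  · intro n t ht
    obtain ⟨m, G, i, hG⟩ := h4 n t ht
    exact ⟨m, G, i, hG⟩
  · exact fun n => Av_not hC.op hT hK (h2 n)

end Pool.Agent.HTS
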